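import Pool.Agent.R544.PQ.Good

/-!
Multiples `m ξ` for which the fractional parts of `m ξ (p/q)^t` are eventually in `[0, 1/q)`.
-/

set_option autoImplicit false

namespace Pool.Agent.R544.PQ

open Finset

/-- `w` is the beginning of the sequence of digits of `x ∈ [0,1)` under `x ↦ β x mod 1` -/
def Itin (β : ℝ) : ℝ → List ℤ → Prop
  | x, [] => 0 ≤ x ∧ x < 1
  | x, e :: w => (0 ≤ x ∧ x < 1) ∧ Itin β (β * x - e) w

lemma Itin.mem {β x : ℝ} {w : List ℤ} (h : Itin β x w) : 0 ≤ x ∧ x < 1 := by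
  cases w with
  | nil => exact h
  | cons e w => exact h.1

/-- the words of length `T` of the points of `[0, r)` -/
def WS (β : ℝ) (T : ℕ) (r : ℝ) : Set (List ℤ) := {w | w.length = T ∧ ∃ x, x < r ∧ Itin β x w}

theorem card_words (β : ℝ) (hβ : 1 < β) (T : ℕ) : ∀ r : ℝ, 0 < r → r ≤ 1 →
    (WS β T r).Finite ∧ ((WS β T r).ncard : ℝ) ≤ 1 + β / (β - 1) * r * (β ^ T - 1) := by
  induction T with
  | zero =>
    intro r hr hr1
    have hsub : WS β 0 r ⊆ {[]} := by
      rintro w ⟨hw, _⟩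
      rw [List.length_eq_zero_iff] at hw
      exact hw
    refine ⟨(Set.finite_singleton _).subset hsub, ?_⟩
    have h1 := (Set.ncard_le_ncard hsub (Set.finite_singleton _)).trans (Set.ncard_singleton _).le
    have : ((WS β 0 r).ncard : ℝ) ≤ 1 := by exact_mod_cast h1
    simpa using this
  | succ T ih =>
    intro r hr hr1
    have hβ0 : 0 < β := by linarith
    have hβr : 0 < β * r := by positivity
    obtain ⟨n, hn⟩ : ∃ n : ℕ, ⌈β * r⌉₊ = n + 1 := by
      have : 0 < ⌈β * r⌉₊ := Nat.ceil_pos.2 hβr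
      exact ⟨⌈β * r⌉₊ - 1, by omega⟩
    have hn1 : (n : ℝ) < β * r := by
      have : n < ⌈β * r⌉₊ := by omega
      exact Nat.lt_ceil.1 this
    have hn2 : β * r ≤ n + 1 := by
      have := Nat.le_ceil (β * r)
      rw [hn] at this
      exact_mod_cast this
    obtain ⟨hF1, hC1⟩ := ih 1 one_pos le_rfl
    obtain ⟨hF2, hC2⟩ := ih (β * r - n) (by linarith) (by linarith)
    classical
    -- the words
    have hsub : WS β (T + 1) r ⊆
        (⋃ e ∈ Finset.range n, (fun w => ((e : ℕ) : ℤ) :: w) '' WS β T 1) ∪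
          (fun w => (n : ℤ) :: w) '' WS β T (β * r - n) := by
      rintro w ⟨hw, x, hxr, hx⟩
      cases w with
      | nil => simp at hw
      | cons e w =>
        obtain ⟨hx01, hxw⟩ := hx
        have hx' := hxw.mem
        have hlen : w.length = T := by simpa using hw
        have hβx : 0 ≤ β * x := mul_nonneg hβ0.le hx01.1
        have he0 : 0 ≤ e := by
          have h1 : (-1 : ℝ) < e := by linarith
          have h2 : (-1 : ℤ) < e := by exact_mod_cast h1
          omega
        obtain ⟨k, rfl⟩ := Int.eq_ofNat_of_zero_le he0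
        have hβxr : β * x < β * r := mul_lt_mul_of_pos_left hxr hβ0
        have hk : (k : ℝ) < n + 1 := by
          have : ((k : ℤ) : ℝ) ≤ β * x := by linarith
          have h3 : (k : ℝ) ≤ β * x := by exact_mod_cast this
          linarith
        have hk' : k < n + 1 := by exact_mod_cast hk
        rcases Nat.lt_succ_iff_lt_or_eq.1 hk' with hlt | rfl
        · left
          rw [Set.mem_iUnion₂]
          exact ⟨k, Finset.mem_range.2 hlt, w, ⟨hlen, _, hx'.2, hxw⟩, rfl⟩
        · right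
          refine ⟨w, ⟨hlen, _, ?_, hxw⟩, rfl⟩
          push_cast
          linarith
    have hfin1 : (⋃ e ∈ Finset.range n, (fun w => ((e : ℕ) : ℤ) :: w) '' WS β T 1).Finite :=
      Set.Finite.biUnion (Finset.range n).finite_toSet fun e _ => hF1.image _
    have hfin : ((⋃ e ∈ Finset.range n, (fun w => ((e : ℕ) : ℤ) :: w) '' WS β T 1) ∪
          (fun w => (n : ℤ) :: w) '' WS β T (β * r - n)).Finite := hfin1.union (hF2.image _)
    refine ⟨hfin.subset hsub, ?_⟩
    have h1 : (WS β (T + 1) r).ncard ≤ n * (WS β T 1).ncard + (WS β T (β * r - n)).ncard := by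
      refine (Set.ncard_le_ncard hsub hfin).trans ((Set.ncard_union_le _ _).trans ?_)
      refine add_le_add ?_ (Set.ncard_image_le hF2)
      refine (Finset.set_ncard_biUnion_le _ _).trans ?_
      refine (Finset.sum_le_card_nsmul _ _ _ fun e _ => Set.ncard_image_le hF1).trans (le_of_eq ?_)
      rw [Finset.card_range, smul_eq_mul]
    have h2 : ((WS β (T + 1) r).ncard : ℝ) ≤
        n * ((WS β T 1).ncard : ℝ) + ((WS β T (β * r - n)).ncard : ℝ) := by exact_mod_cast h1
    have hb1 : 0 < β - 1 := by linarith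
    have hc : β / (β - 1) * (β - 1) = β := by field_simp
    set c := β / (β - 1) with hcdef
    have hT : 0 ≤ β ^ T - 1 := by
      have := one_le_pow₀ hβ.le (n := T)
      linarith
    calc ((WS β (T + 1) r).ncard : ℝ)
        ≤ n * (1 + c * 1 * (β ^ T - 1)) + (1 + c * (β * r - n) * (β ^ T - 1)) := by
          refine h2.trans (add_le_add (mul_le_mul_of_nonneg_left hC1 (by positivity)) hC2)
      _ = n + 1 + c * (β * r) * (β ^ T - 1) := by ring
      _ ≤ β * r + 1 + c * (β * r) * (β ^ T - 1) := by linarith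
      _ = 1 + c * r * (β ^ (T + 1) - 1) + r * (β - c * (β - 1)) := by rw [pow_succ]; ring
      _ = 1 + c * r * (β ^ (T + 1) - 1) := by rw [hc]; ring

lemma itin_map (β : ℝ) : ∀ (T : ℕ) (x : ℕ → ℝ) (e : ℕ → ℤ), (∀ i, 0 ≤ x i ∧ x i < 1) →
    (∀ i, x (i + 1) = β * x i - e i) → Itin β (x 0) ((List.range T).map e) := by
  intro T
  induction T with
  | zero => intro x e hx _; exact hx 0
  | succ T ih =>
    intro x e hx hstep
    rw [List.range_succ_eq_map, List.map_cons, List.map_map]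
    refine ⟨hx 0, ?_⟩
    rw [← hstep 0]
    exact ih (fun i => x (i + 1)) (fun i => e (i + 1)) (fun i => hx (i + 1)) fun i => hstep (i + 1)

/-- the exceptional `m < M` -/
def ArcExc (p q : ℕ) (ξ : ℝ) (M : ℕ) : Set ℕ :=
  {m : ℕ | m < M ∧ {t : ℕ | 1 / (q : ℝ) ≤ Int.fract (m * (ξ * ((p : ℝ) / q) ^ t))}.Finite}

theorem arc_card (p q : ℕ) (hq : 2 ≤ q) (hqp : q < p) (hco : Nat.Coprime p q) (T : ℕ)
    (ξ : ℝ) (hξ : ξ ≠ 0) (M : ℕ) (hM : 1 ≤ M) (hMT : (p + q) * M ≤ q * p ^ T) :
    ((ArcExc p q ξ M).ncard : ℝ) ≤ (p : ℝ) / (p - q) * ((p : ℝ) / q) ^ T := by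
  classical
  have hqR : (2 : ℝ) ≤ q := by exact_mod_cast hq
  have hpR : (q : ℝ) < p := by exact_mod_cast hqp
  have hq0 : (0 : ℝ) < q := by linarith
  have hp0 : (0 : ℝ) < p := by linarith
  set E := ArcExc p q ξ M with hE
  have hEf : E.Finite := (Set.finite_lt_nat M).subset fun _ hm => hm.1
  obtain ⟨t0, ht0⟩ : ∃ t0, ∀ m ∈ E, ∀ t, t0 ≤ t →
      Int.fract (m * (ξ * ((p : ℝ) / q) ^ t)) < 1 / (q : ℝ) := by
    have h1 : ∀ m : ℕ, ∃ B, m ∈ E → ∀ t, B ≤ t →
        Int.fract (m * (ξ * ((p : ℝ) / q) ^ t)) < 1 / (q : ℝ) := by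
      intro m
      by_cases hm : m ∈ E
      · obtain ⟨B, hB⟩ := hm.2.bddAbove
        refine ⟨B + 1, fun _ i hi => ?_⟩
        by_contra hcon
        have := hB (not_lt.1 hcon)
        omega
      · exact ⟨0, fun h => absurd h hm⟩
    choose B hB using h1
    refine ⟨(Finset.range M).sup B, fun m hm i hi => hB m hm i ?_⟩
    exact (Finset.le_sup (Finset.mem_range.2 hm.1)).trans hi
  have hqT : (0 : ℝ) < (q : ℝ) ^ T := by positivity
  have hpT : (0 : ℝ) < (p : ℝ) ^ T := by positivity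
  obtain ⟨t, ht, hgood⟩ := exists_good p q hq hqp hco (ξ / (q : ℝ) ^ T) (div_ne_zero hξ hqT.ne') M hM t0
  -- the sequences
  set y : ℕ → ℕ → ℝ := fun m i => m * (ξ * ((p : ℝ) / q) ^ (t + i)) with hy
  set g : ℕ → ℕ → ℤ := fun m i => ⌊y m i⌋ with hg
  set f : ℕ → ℕ → ℝ := fun m i => Int.fract (y m i) with hf
  set e : ℕ → ℕ → ℤ := fun m i => q * g m (i + 1) - p * g m i with he
  have hyg : ∀ m i, y m i = g m i + f m i := fun m i => (Int.floor_add_fract _).symm
  have hy1 : ∀ m i, (q : ℝ) * y m (i + 1) = p * y m i := by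
    intro m i
    rw [hy]
    simp only
    rw [← add_assoc, pow_succ]
    field_simp
  have hfe : ∀ m i, (p : ℝ) * f m i - q * f m (i + 1) = e m i := by
    intro m i
    have h1 := hy1 m i
    rw [hyg, hyg] at h1
    rw [he]
    push_cast
    linarith
  have hff : ∀ m ∈ E, ∀ i, 0 ≤ f m i ∧ f m i < 1 / (q : ℝ) := fun m hm i =>
    ⟨Int.fract_nonneg _, ht0 m hm (t + i) (by omega)⟩
  have hmaps : ∀ m ∈ E, (List.range T).map (e m) ∈ WS ((p : ℝ) / q) T 1 := by
    intro m hm
    have hx : ∀ i, 0 ≤ (q : ℝ) * f m i ∧ (q : ℝ) * f m i < 1 := by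
      intro i
      obtain ⟨h1, h2⟩ := hff m hm i
      refine ⟨by positivity, ?_⟩
      rw [lt_div_iff₀ hq0] at h2
      linarith
    refine ⟨by simp, (q : ℝ) * f m 0, (hx 0).2, itin_map _ T (fun i => (q : ℝ) * f m i) (e m) hx ?_⟩
    intro i
    have h1 := hfe m i
    show (q : ℝ) * f m (i + 1) = p / q * (q * f m i) - e m i
    rw [← h1]
    field_simp
    ring
  have hinj : Set.InjOn (fun m => (List.range T).map (e m)) E := by
    have key : ∀ m m' : ℕ, m ∈ E → m' ∈ E → m' < m →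
        (List.range T).map (e m) = (List.range T).map (e m') → False := by
      intro m m' hm hm' hlt hww
      rw [List.map_inj_left] at hww
      have hee : ∀ i < T, e m i = e m' i := fun i hi => hww i (List.mem_range.2 hi)
      -- the integral parts
      have hd : ∀ i ≤ T, (q : ℤ) ^ i * (g m i - g m' i) = (p : ℤ) ^ i * (g m 0 - g m' 0) := by
        intro i
        induction i with
        | zero => intro _; simp
        | succ i ih =>
          intro hi
          have h1 := ih (by omega)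
          have h2 := hee i (by omega)
          rw [he] at h2
          simp only at h2
          rw [pow_succ, pow_succ]
          linear_combination (p : ℤ) * h1 + (q : ℤ) ^ i * h2
      have hh : ∀ i ≤ T, (q : ℝ) ^ i * (f m i - f m' i) = (p : ℝ) ^ i * (f m 0 - f m' 0) := by
        intro i
        induction i with
        | zero => intro _; simp
        | succ i ih =>
          intro hi
          have h1 := ih (by omega)
          have h2 : ((e m i : ℤ) : ℝ) = e m' i := by rw [hee i (by omega)]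
          have h3 := hfe m i
          have h4 := hfe m' i
          rw [pow_succ, pow_succ]
          linear_combination (p : ℝ) * h1 - (q : ℝ) ^ i * (h3 - h4 + h2)
      have hdvd : (q : ℤ) ^ T ∣ g m 0 - g m' 0 := by
        have h1 : (q : ℤ) ^ T ∣ (p : ℤ) ^ T * (g m 0 - g m' 0) := ⟨_, (hd T le_rfl).symm⟩
        have h3 : IsCoprime ((q : ℤ) ^ T) ((p : ℤ) ^ T) :=
          IsCoprime.pow (Nat.isCoprime_iff_coprime.2 hco.symm)
        exact h3.dvd_of_dvd_mul_left h1
      obtain ⟨n, hn⟩ := hdvd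
      have h1 := hgood (m - m') (by omega) (by have := hm.1; omega) n
      have h2 : ((m - m' : ℕ) : ℝ) * (ξ / (q : ℝ) ^ T * ((p : ℝ) / q) ^ t) - n =
          (f m 0 - f m' 0) / (q : ℝ) ^ T := by
        rw [Nat.cast_sub hlt.le]
        have h3 : (m : ℝ) * (ξ * ((p : ℝ) / q) ^ t) = g m 0 + f m 0 := by
          rw [← hyg]
          simp [hy]
        have h4 : (m' : ℝ) * (ξ * ((p : ℝ) / q) ^ t) = g m' 0 + f m' 0 := by
          rw [← hyg]
          simp [hy]
        have h5 : ((g m 0 : ℤ) : ℝ) - g m' 0 = (q : ℝ) ^ T * n := by exact_mod_cast hn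
        have h6 : ((m : ℝ) - m') * (ξ / (q : ℝ) ^ T * ((p : ℝ) / q) ^ t) =
            ((m : ℝ) * (ξ * ((p : ℝ) / q) ^ t) - (m' : ℝ) * (ξ * ((p : ℝ) / q) ^ t)) / (q : ℝ) ^ T := by
          ring
        rw [h6, h3, h4]
        have h7 : (g m 0 : ℝ) + f m 0 - (g m' 0 + f m' 0) = (q : ℝ) ^ T * n + (f m 0 - f m' 0) := by
          linarith
        rw [h7]
        field_simp
        ring
      rw [h2] at h1
      have h3 := hh T le_rfl
      have h4 : |f m T - f m' T| < 1 / (q : ℝ) := by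
        have a1 := hff m hm T
        have a2 := hff m' hm' T
        rw [abs_lt]
        constructor <;> linarith
      have h5 : |f m 0 - f m' 0| * (p : ℝ) ^ T < (q : ℝ) ^ T * (1 / q) := by
        have h6 : |f m 0 - f m' 0| * (p : ℝ) ^ T = |f m T - f m' T| * (q : ℝ) ^ T := by
          rw [← abs_of_pos hpT, ← abs_mul, ← abs_of_pos hqT, ← abs_mul]
          congr 1
          linarith
        rw [h6, mul_comm ((q : ℝ) ^ T)]
        exact mul_lt_mul_of_pos_right h4 hqT
      have hMpos : (0 : ℝ) < ((p : ℝ) + q) * M := by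
        have : (1 : ℝ) ≤ M := by exact_mod_cast hM
        positivity
      rw [abs_div, abs_of_pos hqT, div_le_div_iff₀ hMpos hqT, one_mul] at h1
      have h7 : ((p : ℝ) + q) * M ≤ q * (p : ℝ) ^ T := by exact_mod_cast hMT
      -- `q ^ T ≤ |h| (p + q) M ≤ |h| q p ^ T < q ^ T`
      have h8 : |f m 0 - f m' 0| * (((p : ℝ) + q) * M) ≤ |f m 0 - f m' 0| * (q * (p : ℝ) ^ T) :=
        mul_le_mul_of_nonneg_left h7 (abs_nonneg _)
      have h9 : |f m 0 - f m' 0| * (q * (p : ℝ) ^ T) < (q : ℝ) ^ T := by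
        have := mul_lt_mul_of_pos_left h5 hq0
        have e1 : (q : ℝ) * ((q : ℝ) ^ T * (1 / q)) = (q : ℝ) ^ T := by field_simp
        rw [e1] at this
        linarith
      linarith
    intro m hm m' hm' huu
    rcases lt_trichotomy m m' with hlt | heq | hgt
    · exact (key m' m hm' hm hlt huu.symm).elim
    · exact heq
    · exact (key m m' hm hm' hgt huu).elim
  have hβ : 1 < (p : ℝ) / q := by rw [lt_div_iff₀ hq0]; linarith
  obtain ⟨hfin, hcard⟩ := card_words _ hβ T 1 one_pos le_rfl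
  have h1 := Set.ncard_le_ncard_of_injOn _ hmaps hinj hfin
  have h2 : ((E.ncard : ℕ) : ℝ) ≤ ((WS ((p : ℝ) / q) T 1).ncard : ℝ) := by exact_mod_cast h1
  have hpq : 0 < (p : ℝ) - q := by linarith
  have hc : (p : ℝ) / q / ((p : ℝ) / q - 1) = (p : ℝ) / (p - q) := by
    field_simp
  rw [hc] at hcard
  have hc1 : 1 ≤ (p : ℝ) / (p - q) := by
    rw [le_div_iff₀ hpq]
    linarith
  calc ((E.ncard : ℕ) : ℝ) ≤ 1 + (p : ℝ) / (p - q) * 1 * (((p : ℝ) / q) ^ T - 1) := h2.trans hcard
    _ ≤ (p : ℝ) / (p - q) * ((p : ℝ) / q) ^ T := by nlinarith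

/-- **Main theorem**, with the exponent `θ = log (p/q) / log p = 1 - log q / log p`. -/
theorem arc_bound (p q : ℕ) (hq : 2 ≤ q) (hqp : q < p) (hco : Nat.Coprime p q)
    (ξ : ℝ) (hξ : ξ ≠ 0) (M : ℕ) (hM : 1 ≤ M) :
    ((ArcExc p q ξ M).ncard : ℝ) ≤ (p : ℝ) / (p - q) *
      ((p : ℝ) * (p + q) / q * M) ^ (Real.log ((p : ℝ) / q) / Real.log p) := by
  have hqR : (2 : ℝ) ≤ q := by exact_mod_cast hq
  have hpR : (q : ℝ) < p := by exact_mod_cast hqp
  have hq0 : (0 : ℝ) < q := by linarith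
  have hp0 : (0 : ℝ) < p := by linarith
  have hp1 : (1 : ℝ) < p := by linarith
  have hMR : (1 : ℝ) ≤ M := by exact_mod_cast hM
  have hpq : 0 < (p : ℝ) - q := by linarith
  have hex : ∃ T : ℕ, ((p : ℝ) + q) * M ≤ q * (p : ℝ) ^ T := by
    obtain ⟨T, hT⟩ := pow_unbounded_of_one_lt (((p : ℝ) + q) * M) hp1
    refine ⟨T, hT.le.trans ?_⟩
    have : 0 < (p : ℝ) ^ T := by positivity
    nlinarith
  classical
  set T := Nat.find hex with hTdef
  have hT : ((p : ℝ) + q) * M ≤ q * (p : ℝ) ^ T := Nat.find_spec hex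
  have hT1 : 1 ≤ T := by
    by_contra hcon
    have : T = 0 := by omega
    rw [this, pow_zero] at hT
    nlinarith
  have hTm : q * (p : ℝ) ^ (T - 1) < ((p : ℝ) + q) * M :=
    not_le.1 (Nat.find_min hex (Nat.sub_lt hT1 one_pos))
  have hMT : (p + q) * M ≤ q * p ^ T := by exact_mod_cast hT
  refine (arc_card p q hq hqp hco T ξ hξ M hM hMT).trans ?_
  refine mul_le_mul_of_nonneg_left ?_ (by positivity)
  have hup : (p : ℝ) ^ T ≤ (p : ℝ) * (p + q) / q * M := by
    have e1 : (p : ℝ) ^ T = (p : ℝ) ^ (T - 1) * p := by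
      rw [← pow_succ]
      congr 1
      omega
    have e2 : (p : ℝ) * (p + q) / q * M = ((p : ℝ) + q) * M / q * p := by ring
    rw [e1, e2]
    refine mul_le_mul_of_nonneg_right ?_ hp0.le
    rw [le_div_iff₀ hq0]
    linarith
  have hlogp : 0 < Real.log p := Real.log_pos hp1
  have hlogpq : 0 < Real.log ((p : ℝ) / q) := Real.log_pos (by rw [lt_div_iff₀ hq0]; linarith)
  have e3 : ((p : ℝ) / q) ^ T = ((p : ℝ) ^ T) ^ (Real.log ((p : ℝ) / q) / Real.log p) := by
    rw [Real.rpow_def_of_pos (by positivity : (0 : ℝ) < (p : ℝ) ^ T), Real.log_pow,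
      ← Real.exp_log (by positivity : (0 : ℝ) < ((p : ℝ) / q) ^ T), Real.log_pow]
    congr 1
    field_simp
  rw [e3]
  exact Real.rpow_le_rpow (by positivity) hup (by positivity)

end Pool.Agent.R544.PQ
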