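import Mathlib

/-!
Counting residues modulo `(p q)^T` which avoid an interval at many scales.
-/

set_option autoImplicit false

namespace Pool.Agent.R544.PQ

open Finset

/-- the modulus at step `j` -/
def W (p q h T j : ℕ) : ℕ := q ^ (j * h) * p ^ (T - j * h)

open Classical in
/-- the integers `u < q^(K h) p^T` which avoid `[a, a + q^(-h))` at the steps `1, …, K` -/
noncomputable def bad (p q h T : ℕ) (a : ℝ) (K : ℕ) : Finset ℕ :=
  (Finset.range (q ^ (K * h) * p ^ T)).filter fun u => ∀ j, 1 ≤ j → j ≤ K →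
    ¬ (a ≤ ((u % W p q h T j : ℕ) : ℝ) / (W p q h T j : ℕ) ∧
      ((u % W p q h T j : ℕ) : ℝ) / (W p q h T j : ℕ) < a + 1 / (q : ℝ) ^ h)

lemma mem_bad {p q h T : ℕ} {a : ℝ} {K u : ℕ} : u ∈ bad p q h T a K ↔
    u < q ^ (K * h) * p ^ T ∧ ∀ j, 1 ≤ j → j ≤ K →
    ¬ (a ≤ ((u % W p q h T j : ℕ) : ℝ) / (W p q h T j : ℕ) ∧
      ((u % W p q h T j : ℕ) : ℝ) / (W p q h T j : ℕ) < a + 1 / (q : ℝ) ^ h) := by
  unfold bad
  simp only [Finset.mem_filter, Finset.mem_range]

/-- for given lower part one of the `q ^ h` possible continuations hits the interval -/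
lemma exists_hit (p q h : ℕ) (hq : 2 ≤ q) (hco : Nat.Coprime p q)
    (a : ℝ) (ha : 0 ≤ a) (ha1 : a + 1 / (q : ℝ) ^ h ≤ 1) (V e u' : ℕ) (hV : 0 < V) :
    ∃ s < q ^ h, a ≤ (((u' + s * (V * p ^ e)) % (q ^ h * V) : ℕ) : ℝ) / ((q ^ h * V : ℕ) : ℝ) ∧
      (((u' + s * (V * p ^ e)) % (q ^ h * V) : ℕ) : ℝ) / ((q ^ h * V : ℕ) : ℝ) <
        a + 1 / (q : ℝ) ^ h := by
  have hq0 : 0 < q := by omega
  have hqh : 0 < q ^ h := by positivity
  have hqR : (0 : ℝ) < (q : ℝ) ^ h := by positivity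
  have hVR : (0 : ℝ) < V := by exact_mod_cast hV
  set v := u' % V with hv
  have hvV : v < V := Nat.mod_lt _ hV
  set y := u' / V with hy
  have huy : u' = V * y + v := (Nat.div_add_mod u' V).symm
  -- the target
  set x : ℝ := (q : ℝ) ^ h * a - v / V with hx
  obtain ⟨c, hc⟩ : ∃ c : ℤ, c = ⌈x⌉ := ⟨_, rfl⟩
  have hvV' : (v : ℝ) / V < 1 := by
    rw [div_lt_one hVR]
    exact_mod_cast hvV
  have hvV0 : 0 ≤ (v : ℝ) / V := by positivity
  have hc0 : 0 ≤ c := by
    have h1 : x ≤ c := by rw [hc]; exact Int.le_ceil x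
    have h2 : (-1 : ℝ) < c := by
      have : 0 ≤ (q : ℝ) ^ h * a := by positivity
      linarith
    have h3 : (-1 : ℤ) < c := by exact_mod_cast h2
    omega
  have hc1 : (c : ℝ) < x + 1 := by rw [hc]; exact Int.ceil_lt_add_one x
  have hcx : x ≤ c := by rw [hc]; exact Int.le_ceil x
  have hcq : c < (q : ℤ) ^ h := by
    have h1 : (q : ℝ) ^ h * a + 1 ≤ (q : ℝ) ^ h := by
      have := mul_le_mul_of_nonneg_left ha1 hqR.le
      have e2 : (q : ℝ) ^ h * (1 / (q : ℝ) ^ h) = 1 := by field_simp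
      rw [mul_add, e2, mul_one] at this
      exact this
    have h2 : (c : ℝ) < (q : ℝ) ^ h := by linarith
    exact_mod_cast h2
  obtain ⟨c', rfl⟩ := Int.eq_ofNat_of_zero_le hc0
  have hcq' : c' < q ^ h := by exact_mod_cast hcq
  -- solve the congruence
  have hcop : Nat.Coprime (p ^ e) (q ^ h) := Nat.Coprime.pow e h hco
  obtain ⟨s, hs, hsc⟩ : ∃ s < q ^ h, (y + s * p ^ e) % q ^ h = c' := by
    obtain ⟨s0, hs0⟩ : ∃ s0 : ℤ, (y + s0 * (p : ℤ) ^ e) ≡ c' [ZMOD (q : ℤ) ^ h] := by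
      have h1 : IsCoprime ((p : ℤ) ^ e) ((q : ℤ) ^ h) := by
        have := Nat.isCoprime_iff_coprime.2 hcop
        exact_mod_cast this
      obtain ⟨A, B, hAB⟩ := h1
      refine ⟨((c' : ℤ) - y) * A, ?_⟩
      rw [Int.modEq_iff_dvd]
      refine ⟨((c' : ℤ) - y) * B, ?_⟩
      linear_combination (-((c' : ℤ) - y)) * hAB
    refine ⟨(s0 % (q : ℤ) ^ h).toNat, ?_, ?_⟩
    · have h2 : 0 ≤ s0 % (q : ℤ) ^ h := Int.emod_nonneg _ (by positivity)
      have h3 : s0 % (q : ℤ) ^ h < (q : ℤ) ^ h := Int.emod_lt_of_pos _ (by positivity)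
      have : ((s0 % (q : ℤ) ^ h).toNat : ℤ) < (q : ℤ) ^ h := by rwa [Int.toNat_of_nonneg h2]
      exact_mod_cast this
    · have h2 : 0 ≤ s0 % (q : ℤ) ^ h := Int.emod_nonneg _ (by positivity)
      have h4 : (((y + (s0 % (q : ℤ) ^ h).toNat * p ^ e) % q ^ h : ℕ) : ℤ) = (c' : ℤ) := by
        push_cast
        rw [Int.toNat_of_nonneg h2]
        have h5 : ((y : ℤ) + s0 % (q : ℤ) ^ h * (p : ℤ) ^ e) ≡ c' [ZMOD (q : ℤ) ^ h] := by
          refine Int.ModEq.trans ?_ hs0
          exact Int.ModEq.add_left _ (Int.ModEq.mul_right _ (Int.mod_modEq _ _))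
        rw [Int.ModEq] at h5
        rw [h5]
        exact Int.emod_eq_of_lt (by positivity) (by exact_mod_cast hcq')
      exact_mod_cast h4
  refine ⟨s, hs, ?_⟩
  have hmod : (u' + s * (V * p ^ e)) % (q ^ h * V) = V * c' + v := by
    have e1 : u' + s * (V * p ^ e) = v + V * (y + s * p ^ e) := by rw [huy]; ring
    rw [e1, mul_comm (q ^ h) V, Nat.mod_mul, Nat.add_mul_mod_self_left, Nat.mod_eq_of_lt hvV,
      Nat.add_mul_div_left _ _ hV, Nat.div_eq_of_lt hvV, zero_add, hsc]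
    ring
  have hval : (((u' + s * (V * p ^ e)) % (q ^ h * V) : ℕ) : ℝ) / ((q ^ h * V : ℕ) : ℝ) =
      ((c' : ℝ) + v / V) / (q : ℝ) ^ h := by
    rw [hmod]
    push_cast
    field_simp
  rw [hval]
  have hcx' : x ≤ (c' : ℝ) := by exact_mod_cast hcx
  have hc1' : (c' : ℝ) < x + 1 := by exact_mod_cast hc1
  constructor
  · rw [le_div_iff₀ hqR]
    linarith
  · rw [div_lt_iff₀ hqR]
    have : (a + 1 / (q : ℝ) ^ h) * (q : ℝ) ^ h = (q : ℝ) ^ h * a + 1 := by field_simp
    rw [this]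
    linarith

/-- **Counting.** -/
theorem card_bad (p q h T : ℕ) (hq : 2 ≤ q) (hp : 0 < p) (hco : Nat.Coprime p q)
    (a : ℝ) (ha : 0 ≤ a) (ha1 : a + 1 / (q : ℝ) ^ h ≤ 1) (K : ℕ) (hK : K * h ≤ T) :
    (bad p q h T a K).card ≤ p ^ T * (q ^ h - 1) ^ K := by
  classical
  induction K with
  | zero =>
    refine (Finset.card_le_card (t := Finset.range (p ^ T)) fun u hu => ?_).trans ?_
    · rw [mem_bad] at hu
      rw [mem_range]
      simpa using hu.1
    · simp
  | succ K ih =>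
    have hK' : K * h ≤ T := le_trans (Nat.mul_le_mul_right _ (Nat.le_succ K)) hK
    have hq0 : 0 < q := by omega
    set Q := q ^ (K * h) * p ^ T with hQ
    have hQ0 : 0 < Q := by positivity
    have hKh : (K + 1) * h = K * h + h := by ring
    rw [hKh] at hK
    -- the modulus at step `K + 1`
    set V := q ^ (K * h) * p ^ (T - (K * h + h)) with hV
    have hV0 : 0 < V := by positivity
    have hWK : W p q h T (K + 1) = q ^ h * V := by
      unfold W
      rw [hV, hKh, pow_add]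
      ring
    have hQV : Q = V * p ^ (K * h + h) := by
      rw [hQ, hV, mul_assoc, ← pow_add]
      congr 2
      omega
    have hmaps : ∀ u ∈ bad p q h T a (K + 1), u % Q ∈ bad p q h T a K := by
      intro u hu
      rw [mem_bad] at hu ⊢
      refine ⟨Nat.mod_lt _ hQ0, fun j hj1 hjK => ?_⟩
      have hdvd : W p q h T j ∣ Q := by
        unfold W
        rw [hQ]
        exact mul_dvd_mul (pow_dvd_pow _ (Nat.mul_le_mul_right _ hjK)) (pow_dvd_pow _ (Nat.sub_le _ _))
      rw [Nat.mod_mod_of_dvd _ hdvd]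
      exact hu.2 j hj1 (by omega)
    have hfib : ∀ u' ∈ bad p q h T a K,
        ((bad p q h T a (K + 1)).filter fun u => u % Q = u').card ≤ q ^ h - 1 := by
      intro u' hu'
      obtain ⟨s, hs, h1, h2⟩ := exists_hit p q h hq hco a ha ha1 V (K * h + h) u' hV0
      have hcard : ((Finset.range (q ^ h)).erase s).card = q ^ h - 1 := by
        rw [Finset.card_erase_of_mem (mem_range.2 hs), Finset.card_range]
      rw [← hcard]
      refine Finset.card_le_card_of_injOn (fun u => u / Q) (fun u hu => ?_) ?_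
      · rw [Finset.mem_coe, mem_filter, mem_bad] at hu
        obtain ⟨⟨hlt, hb⟩, hmod⟩ := hu
        rw [Finset.mem_coe, mem_erase, mem_range]
        refine ⟨fun hsu => ?_, ?_⟩
        · have hu2 : u = u' + s * (V * p ^ (K * h + h)) := by
            rw [← hmod, ← hsu, ← hQV]
            have := Nat.div_add_mod u Q
            nlinarith
          apply hb (K + 1) (by omega) le_rfl
          rw [hWK, hu2]
          exact ⟨h1, h2⟩
        · rw [Nat.div_lt_iff_lt_mul hQ0]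
          calc u < q ^ ((K + 1) * h) * p ^ T := hlt
            _ = q ^ h * Q := by rw [hQ, hKh, pow_add]; ring
      · intro u hu v hv huv
        rw [Finset.mem_coe, mem_filter] at hu hv
        have huv' : u / Q = v / Q := huv
        rw [← Nat.div_add_mod u Q, ← Nat.div_add_mod v Q, hu.2, hv.2, huv']
    calc (bad p q h T a (K + 1)).card ≤ (q ^ h - 1) * (bad p q h T a K).card :=
          Finset.card_le_mul_card_image_of_maps_to hmaps _ hfib
      _ ≤ (q ^ h - 1) * (p ^ T * (q ^ h - 1) ^ K) := Nat.mul_le_mul_left _ (ih hK')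
      _ = p ^ T * (q ^ h - 1) ^ (K + 1) := by ring

end Pool.Agent.R544.PQ
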