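import Pool.Agent.R544.PQ.Main
import Pool.Agent.H429R2.Auto

/-!
Words shown by the multiples of a configuration.
-/

set_option autoImplicit false

namespace Pool.Agent.R544.PQ

open Finset Pool.Agent.H429R2.Auto

/-- the base 6 expansion of the real number `β ≥ 0` -/
noncomputable def conf (β : ℝ) : Conf := fun i => ⟨⌊(6 : ℝ) ^ i * β⌋₊ % 6, Nat.mod_lt _ (by norm_num)⟩

/-- the word `w` of `L` letters stands in `x` starting at the position `j` -/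
def Shows {L : ℕ} (x : Conf) (w : Fin L → Fin 6) (j : ℤ) : Prop := ∀ s : Fin L, x (j + (s : ℕ)) = w s

lemma rep_conf (β : ℝ) : Rep (conf β) β := fun _ => rfl

lemma eq_conf {x : Conf} {β : ℝ} (h : Rep x β) : x = conf β := by
  ext i
  exact h i

lemma conf_fin (N k : ℕ) : IsFin (conf ((N : ℝ) / 6 ^ k)) := by
  have hsub : {i : ℤ | conf ((N : ℝ) / 6 ^ k) i ≠ 0} ⊆ Set.Icc (-(N : ℤ)) k := by
    intro i hi
    rw [Set.mem_Icc]
    by_contra hcon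
    apply hi
    rw [not_and_or, not_le, not_le] at hcon
    rcases hcon with hlt | hgt
    · -- `6 ^ i N < 1`
      apply Fin.ext
      show ⌊(6 : ℝ) ^ i * ((N : ℝ) / 6 ^ k)⌋₊ % 6 = 0
      have h1 : (6 : ℝ) ^ i * ((N : ℝ) / 6 ^ k) < 1 := by
        obtain ⟨l, hl⟩ := Int.eq_ofNat_of_zero_le (show 0 ≤ -i by omega)
        have hi : i = -(l : ℤ) := by omega
        rw [hi, zpow_neg, zpow_natCast]
        have h2 : (N : ℝ) < (6 : ℝ) ^ l := by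
          have h3 : N < l := by omega
          have h4 : l < 6 ^ l := Nat.lt_pow_self (by norm_num)
          exact_mod_cast h3.trans h4
        have h5 : (1 : ℝ) ≤ 6 ^ k := one_le_pow₀ (by norm_num)
        have h6 : (N : ℝ) / 6 ^ k ≤ N := div_le_self (by positivity) h5
        calc ((6 : ℝ) ^ l)⁻¹ * ((N : ℝ) / 6 ^ k) ≤ ((6 : ℝ) ^ l)⁻¹ * N :=
              mul_le_mul_of_nonneg_left h6 (by positivity)
          _ < ((6 : ℝ) ^ l)⁻¹ * (6 : ℝ) ^ l := mul_lt_mul_of_pos_left h2 (by positivity)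
          _ = 1 := inv_mul_cancel₀ (by positivity)
      rw [Nat.floor_eq_zero.2 h1]
    · apply Fin.ext
      show ⌊(6 : ℝ) ^ i * ((N : ℝ) / 6 ^ k)⌋₊ % 6 = 0
      obtain ⟨l, hl⟩ := Int.eq_ofNat_of_zero_le (sub_nonneg.2 hgt.le)
      have hl1 : 0 < l := by omega
      have e : (6 : ℝ) ^ i * ((N : ℝ) / 6 ^ k) = ((6 ^ l * N : ℕ) : ℝ) := by
        have : i = (k : ℤ) + l := by omega
        rw [this, zpow_add₀ (by norm_num), zpow_natCast, zpow_natCast]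
        push_cast
        field_simp
      rw [e, Nat.floor_natCast]
      obtain ⟨l', rfl⟩ : ∃ l', l = l' + 1 := ⟨l - 1, by omega⟩
      rw [pow_succ, mul_comm (6 ^ l') 6, mul_assoc, Nat.mul_mod_right]
  exact (Set.finite_Icc _ _).subset hsub

/-- the number with the digits `w` -/
def code {L : ℕ} (w : Fin L → Fin 6) : ℕ :=
  ∑ r ∈ Finset.range L, ((if h : r < L then w ⟨L - 1 - r, by omega⟩ else 0 : Fin 6) : ℕ) * 6 ^ r

lemma code_lt {L : ℕ} (w : Fin L → Fin 6) : code w < 6 ^ L :=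
  sum_lt L fun r => if h : r < L then w ⟨L - 1 - r, by omega⟩ else 0

lemma code_digit {L : ℕ} (w : Fin L → Fin 6) (s : Fin L) :
    code w / 6 ^ (L - 1 - (s : ℕ)) % 6 = (w s : ℕ) := by
  have hs := s.isLt
  have h := digits_sum L (fun r => if h : r < L then w ⟨L - 1 - r, by omega⟩ else 0)
    (L - 1 - (s : ℕ)) (by omega)
  unfold code
  rw [h]
  have h1 : L - 1 - (s : ℕ) < L := by omega
  simp only [h1, dif_pos]
  congr 2
  apply Fin.ext
  show L - 1 - (L - 1 - (s : ℕ)) = s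
  omega

/-- a hit of the interval of the word -/
lemma shows_of_hit {L : ℕ} (w : Fin L → Fin 6) (β : ℝ) (hβ : 0 ≤ β) (j : ℤ) (t : ℕ)
    (h1 : (code w : ℝ) / 6 ^ L ≤ Int.fract ((6 : ℝ) ^ (j - 1) * ((3 / 2) ^ t * β)))
    (h2 : Int.fract ((6 : ℝ) ^ (j - 1) * ((3 / 2) ^ t * β)) < ((code w : ℝ) + 1) / 6 ^ L) :
    Shows (F^[t] (conf β)) w j := by
  intro s
  have hs := s.isLt
  have hrep := rep_iter hβ (rep_conf β) t
  apply Fin.ext
  rw [hrep (j + (s : ℕ))]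
  set y : ℝ := (6 : ℝ) ^ (j - 1) * ((3 / 2) ^ t * β) with hy
  have hy0 : 0 ≤ y := by positivity
  have e1 : (6 : ℝ) ^ (j + ((s : ℕ) : ℤ)) * ((3 / 2) ^ t * β) = 6 ^ ((s : ℕ) + 1) * y := by
    rw [hy, show j + ((s : ℕ) : ℤ) = (((s : ℕ) + 1 : ℕ) : ℤ) + (j - 1) by push_cast; ring,
      zpow_add₀ (by norm_num), zpow_natCast]
    ring
  rw [e1]
  -- the integer part of `6 ^ L y`
  have hfl : ⌊(6 : ℝ) ^ L * y⌋₊ = 6 ^ L * ⌊y⌋₊ + code w := by
    rw [Nat.floor_eq_iff (by positivity)]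
    have h3 : y = (⌊y⌋₊ : ℝ) + Int.fract y := by
      rw [natCast_floor_eq_intCast_floor hy0]
      exact (Int.floor_add_fract y).symm
    have h6 : (0 : ℝ) < 6 ^ L := by positivity
    rw [div_le_iff₀ h6] at h1
    rw [lt_div_iff₀ h6] at h2
    have h4 : (6 : ℝ) ^ L * y = 6 ^ L * (⌊y⌋₊ : ℝ) + Int.fract y * 6 ^ L := by
      conv_lhs => rw [h3]
      ring
    push_cast
    rw [h4]
    constructor <;> linarith
  have e2 : (6 : ℝ) ^ ((s : ℕ) + 1) * y = ((6 : ℝ) ^ L * y) / ((6 ^ (L - 1 - (s : ℕ)) : ℕ) : ℝ) := by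
    push_cast
    rw [show (6 : ℝ) ^ L = 6 ^ ((s : ℕ) + 1) * 6 ^ (L - 1 - (s : ℕ)) by
      rw [← pow_add]; congr 1; omega]
    field_simp
  rw [e2, Nat.floor_div_natCast, hfl]
  have e3 : 6 ^ L * ⌊y⌋₊ = 6 ^ (L - 1 - (s : ℕ)) * (6 * (6 ^ (s : ℕ) * ⌊y⌋₊)) := by
    have : 6 ^ L = 6 ^ (L - 1 - (s : ℕ)) * (6 * 6 ^ (s : ℕ)) := by
      rw [← pow_succ', ← pow_add]
      congr 1
      omega
    rw [this]
    ring
  rw [e3, Nat.mul_add_div (by positivity), Nat.mul_add_mod, code_digit]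

/-- the multiples of `conf β` in which `w` stands at the position `j` only finitely often -/
lemma single (L : ℕ) (β : ℝ) (hβ : 0 < β) (M : ℕ) (hM : 1 ≤ M) (w : Fin L → Fin 6) (j : ℤ) :
    (({m : ℕ | m < M ∧ {t : ℕ | Shows (F^[t] (conf (m * β))) w j}.Finite}.ncard : ℕ) : ℝ) ≤
      5 * 6 ^ (3 * L + 1) * (M : ℝ) ^ (1 - expo 3 2 (3 * L + 1)) := by
  have hξ : (6 : ℝ) ^ (j - 1) * β ≠ 0 := by positivity
  have hcl := code_lt w
  have hclR : (code w : ℝ) + 1 ≤ 6 ^ L := by exact_mod_cast hcl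
  have h6 : (0 : ℝ) < 6 ^ L := by positivity
  have hwid : (2 : ℝ) / ((2 : ℕ) : ℝ) ^ (3 * L + 1) ≤ 1 / 6 ^ L := by
    rw [div_le_div_iff₀ (by positivity) h6, pow_succ, pow_mul]
    have : (6 : ℝ) ^ L ≤ (((2 : ℕ) : ℝ) ^ 3) ^ L := pow_le_pow_left₀ (by norm_num) (by norm_num) L
    push_cast at this ⊢
    linarith
  have ha1 : (code w : ℝ) / 6 ^ L + 2 / ((2 : ℕ) : ℝ) ^ (3 * L + 1) ≤ 1 := by
    have : (code w : ℝ) / 6 ^ L + 1 / 6 ^ L ≤ 1 := by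
      rw [← add_div, div_le_one h6]
      exact hclR
    linarith
  have h := exc_bound 3 2 le_rfl (by norm_num) (by norm_num) (3 * L + 1) (by omega)
    ((6 : ℝ) ^ (j - 1) * β) hξ ((code w : ℝ) / 6 ^ L) (by positivity) ha1 M hM
  have hsub : {m : ℕ | m < M ∧ {t : ℕ | Shows (F^[t] (conf (m * β))) w j}.Finite} ⊆
      Exc 3 2 ((6 : ℝ) ^ (j - 1) * β) ((code w : ℝ) / 6 ^ L)
        ((code w : ℝ) / 6 ^ L + 2 / ((2 : ℕ) : ℝ) ^ (3 * L + 1)) M := by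
    rintro m ⟨hm, hf⟩
    refine ⟨hm, hf.subset fun t ht => ?_⟩
    obtain ⟨ht1, ht2⟩ := ht
    have e : (m : ℝ) * ((6 : ℝ) ^ (j - 1) * β * (((3 : ℕ) : ℝ) / ((2 : ℕ) : ℝ)) ^ t) =
        (6 : ℝ) ^ (j - 1) * ((3 / 2) ^ t * (m * β)) := by
      push_cast
      ring
    rw [e] at ht1 ht2
    refine shows_of_hit w (m * β) (by positivity) j t ht1 (ht2.trans_le ?_)
    rw [add_div]
    linarith
  have h2 : (({m : ℕ | m < M ∧ {t : ℕ | Shows (F^[t] (conf (m * β))) w j}.Finite}.ncard : ℕ) : ℝ) ≤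
      ((Exc 3 2 ((6 : ℝ) ^ (j - 1) * β) ((code w : ℝ) / 6 ^ L)
        ((code w : ℝ) / 6 ^ L + 2 / ((2 : ℕ) : ℝ) ^ (3 * L + 1)) M).ncard : ℝ) := by
    exact_mod_cast Set.ncard_le_ncard hsub (exc_finite _ _ _ _ _ _)
  refine h2.trans (h.trans (le_of_eq ?_))
  norm_num

/-- all words and all positions in a window -/
theorem window (L : ℕ) (β : ℝ) (hβ : 0 < β) (M : ℕ) (hM : 1 ≤ M) (J : ℕ) :
    (({m : ℕ | m < M ∧ ¬ ∀ j : ℤ, |j| ≤ J → ∀ w : Fin L → Fin 6,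
      {t : ℕ | Shows (F^[t] (conf (m * β))) w j}.Infinite}.ncard : ℕ) : ℝ) ≤
      (2 * J + 1) * 5 * 6 ^ (4 * L + 1) * (M : ℝ) ^ (1 - expo 3 2 (3 * L + 1)) := by
  classical
  set S : ℤ × (Fin L → Fin 6) → Set ℕ := fun x =>
    {m : ℕ | m < M ∧ {t : ℕ | Shows (F^[t] (conf (m * β))) x.2 x.1}.Finite} with hS
  set I : Finset (ℤ × (Fin L → Fin 6)) := (Finset.Icc (-(J : ℤ)) J) ×ˢ Finset.univ with hI
  have hSf : ∀ x, (S x).Finite := fun x => (Set.finite_lt_nat M).subset fun m hm => hm.1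
  have hsub : {m : ℕ | m < M ∧ ¬ ∀ j : ℤ, |j| ≤ J → ∀ w : Fin L → Fin 6,
      {t : ℕ | Shows (F^[t] (conf (m * β))) w j}.Infinite} ⊆ ⋃ x ∈ I, S x := by
    rintro m ⟨hm, hn⟩
    push Not at hn
    obtain ⟨j, hj, w, hw⟩ := hn
    rw [Set.mem_iUnion₂]
    refine ⟨(j, w), ?_, hm, hw⟩
    rw [hI, Finset.mem_product, Finset.mem_Icc]
    rw [abs_le] at hj
    exact ⟨hj, Finset.mem_univ _⟩
  have h1 : {m : ℕ | m < M ∧ ¬ ∀ j : ℤ, |j| ≤ J → ∀ w : Fin L → Fin 6,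
      {t : ℕ | Shows (F^[t] (conf (m * β))) w j}.Infinite}.ncard ≤ ∑ x ∈ I, (S x).ncard :=
    (Set.ncard_le_ncard hsub (Set.Finite.biUnion I.finite_toSet fun x _ => hSf x)).trans
      (Finset.set_ncard_biUnion_le I S)
  have h2 : (({m : ℕ | m < M ∧ ¬ ∀ j : ℤ, |j| ≤ J → ∀ w : Fin L → Fin 6,
      {t : ℕ | Shows (F^[t] (conf (m * β))) w j}.Infinite}.ncard : ℕ) : ℝ) ≤
      ∑ x ∈ I, ((S x).ncard : ℝ) := by exact_mod_cast h1
  refine h2.trans ((Finset.sum_le_card_nsmul I _ _ fun x _ =>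
    single L β hβ M hM x.2 x.1).trans (le_of_eq ?_))
  have hcard : (I.card : ℝ) = (2 * J + 1) * 6 ^ L := by
    rw [hI, Finset.card_product, Int.card_Icc, Finset.card_univ, Fintype.card_fun, Fintype.card_fin,
      Fintype.card_fin]
    have : ((J : ℤ) + 1 - -(J : ℤ)).toNat = 2 * J + 1 := by omega
    rw [this]
    push_cast
    ring
  rw [nsmul_eq_mul, hcard, show 4 * L + 1 = L + (3 * L + 1) by ring, pow_add]
  ring

end Pool.Agent.R544.PQ
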