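import Mathlib

/-!
Multiples `m ξ (p/q)^t` modulo one: separation at arbitrarily late times.
-/

set_option autoImplicit false

namespace Pool.Agent.R544.PQ

/-- For all `ξ ≠ 0` and `N` there are arbitrarily large `t` such that the numbers `r ξ (p/q)^t`,
`0 < r < N`, have distance at least `1 / ((p + q) N)` from the integers. -/
theorem exists_good (p q : ℕ) (hq : 2 ≤ q) (hqp : q < p) (hco : Nat.Coprime p q) (ξ : ℝ) (hξ : ξ ≠ 0)
    (N : ℕ) (hN : 1 ≤ N) (t0 : ℕ) :
    ∃ t, t0 ≤ t ∧ ∀ r : ℕ, 0 < r → r < N → ∀ z : ℤ,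
      1 / (((p : ℝ) + q) * N) ≤ |(r : ℝ) * (ξ * ((p : ℝ) / q) ^ t) - z| := by
  by_contra hcon
  push Not at hcon
  have hqR : (2 : ℝ) ≤ q := by exact_mod_cast hq
  have hpR : (q : ℝ) < p := by exact_mod_cast hqp
  have hp0 : (0 : ℝ) < p := by linarith
  have hq0 : (0 : ℝ) < q := by linarith
  have hNR : (1 : ℝ) ≤ N := by exact_mod_cast hN
  have h1 : ∀ l : ℕ, ∃ r : ℕ, ∃ z : ℤ, 0 < r ∧ r < N ∧
      |(r : ℝ) * (ξ * ((p : ℝ) / q) ^ (t0 + l)) - z| < 1 / (((p : ℝ) + q) * N) := by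
    intro l
    obtain ⟨r, h0, h2, z, h3⟩ := hcon (t0 + l) (by omega)
    exact ⟨r, z, h0, h2, h3⟩
  choose r z hr0 hrN hrz using h1
  set δ : ℝ := 1 / (((p : ℝ) + q) * N) with hδ
  have hδ0 : 0 < δ := by positivity
  have hδ1 : δ < 1 := by
    rw [hδ, div_lt_one (by positivity)]
    nlinarith
  have hstep : ∀ l, (p : ℤ) * (z l * r (l + 1)) = q * (z (l + 1) * r l) := by
    intro l
    have ha : (0 : ℝ) < r l := by exact_mod_cast hr0 l
    have hc : (0 : ℝ) < r (l + 1) := by exact_mod_cast hr0 (l + 1)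
    have ha' : (r l : ℝ) < N := by exact_mod_cast hrN l
    have hc' : (r (l + 1) : ℝ) < N := by exact_mod_cast hrN (l + 1)
    set e := (r l : ℝ) * (ξ * ((p : ℝ) / q) ^ (t0 + l)) - z l with he
    set e' := (r (l + 1) : ℝ) * (ξ * ((p : ℝ) / q) ^ (t0 + (l + 1))) - z (l + 1) with he'
    have hee : |e| < δ := hrz l
    have hee' : |e'| < δ := hrz (l + 1)
    have hid : (((p : ℤ) * (z l * r (l + 1)) - q * (z (l + 1) * r l) : ℤ) : ℝ) =
        q * (r l * e') - p * (r (l + 1) * e) := by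
      push_cast
      rw [he, he', ← add_assoc, pow_succ]
      field_simp
      ring
    have hlt : |(((p : ℤ) * (z l * r (l + 1)) - q * (z (l + 1) * r l) : ℤ) : ℝ)| < 1 := by
      rw [hid]
      have h2 : (r l : ℝ) * |e'| < N * δ :=
        (mul_lt_mul_of_pos_left hee' ha).trans_le (mul_le_mul_of_nonneg_right ha'.le hδ0.le)
      have h3 : (r (l + 1) : ℝ) * |e| < N * δ :=
        (mul_lt_mul_of_pos_left hee hc).trans_le (mul_le_mul_of_nonneg_right hc'.le hδ0.le)
      have h4 : (N : ℝ) * δ * (p + q) = 1 := by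
        rw [hδ]
        field_simp
      calc |(q : ℝ) * (r l * e') - p * (r (l + 1) * e)|
          ≤ |(q : ℝ) * (r l * e')| + |(p : ℝ) * (r (l + 1) * e)| := abs_sub _ _
        _ = q * (r l * |e'|) + p * (r (l + 1) * |e|) := by
            rw [abs_mul, abs_mul, abs_mul, abs_mul, abs_of_pos ha, abs_of_pos hc, abs_of_pos hq0,
              abs_of_pos hp0]
        _ < q * (N * δ) + p * (N * δ) := by
            have := mul_lt_mul_of_pos_left h2 hq0
            have := mul_lt_mul_of_pos_left h3 hp0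
            linarith
        _ = 1 := by rw [← h4]; ring
    have hz : (p : ℤ) * (z l * r (l + 1)) - q * (z (l + 1) * r l) = 0 := by
      rw [← Int.abs_lt_one_iff]
      exact_mod_cast hlt
    linarith
  -- `z l * r 0 * q ^ l = p ^ l * z 0 * r l`
  have hall : ∀ l, z l * r 0 * (q : ℤ) ^ l = (p : ℤ) ^ l * z 0 * r l := by
    intro l
    induction l with
    | zero => ring
    | succ l ih =>
      have hrl : (r l : ℤ) ≠ 0 := by exact_mod_cast (hr0 l).ne'
      apply mul_right_cancel₀ hrl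
      calc z (l + 1) * r 0 * (q : ℤ) ^ (l + 1) * r l
          = (q * (z (l + 1) * r l)) * (r 0 * (q : ℤ) ^ l) := by ring
        _ = (p * (z l * r (l + 1))) * (r 0 * (q : ℤ) ^ l) := by rw [hstep]
        _ = p * r (l + 1) * (z l * r 0 * (q : ℤ) ^ l) := by ring
        _ = (p : ℤ) ^ (l + 1) * z 0 * r (l + 1) * r l := by rw [ih]; ring
  have hgrow : ∀ B : ℝ, ∃ l : ℕ, B < ((p : ℝ) / q) ^ l := fun B =>
    pow_unbounded_of_one_lt B (by rw [lt_div_iff₀ hq0]; linarith)
  by_cases hz0 : z 0 = 0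
  · -- all `z l` vanish
    have hzl : ∀ l, z l = 0 := by
      intro l
      have := hall l
      rw [hz0, mul_zero, zero_mul] at this
      have h0 : (r 0 : ℤ) ≠ 0 := by exact_mod_cast (hr0 0).ne'
      have h2 : (q : ℤ) ^ l ≠ 0 := by positivity
      rcases mul_eq_zero.1 this with h | h
      · rcases mul_eq_zero.1 h with h | h
        · exact h
        · exact absurd h h0
      · exact absurd h h2
    obtain ⟨l, hl⟩ := hgrow (1 / |ξ|)
    have h2 := hrz l
    rw [hzl l, Int.cast_zero, sub_zero, abs_mul, abs_mul, abs_of_pos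
      (by positivity : (0 : ℝ) < ((p : ℝ) / q) ^ (t0 + l)), Nat.abs_cast] at h2
    have h3 : (1 : ℝ) ≤ r l := by exact_mod_cast hr0 l
    have h4 : ((p : ℝ) / q) ^ l ≤ ((p : ℝ) / q) ^ (t0 + l) :=
      pow_le_pow_right₀ (by rw [le_div_iff₀ hq0]; linarith) (by omega)
    have hξ' : 0 < |ξ| := abs_pos.2 hξ
    rw [div_lt_iff₀ hξ'] at hl
    have h5 : (1 : ℝ) < |ξ| * ((p : ℝ) / q) ^ (t0 + l) := by nlinarith
    nlinarith
  · -- `q ^ l` divides `z 0 * r l`
    have hdvd : ∀ l, (q : ℤ) ^ l ∣ z 0 * r l := by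
      intro l
      have h2 : (q : ℤ) ^ l ∣ (p : ℤ) ^ l * (z 0 * r l) := ⟨z l * r 0, by
        have := hall l
        linarith⟩
      have h3 : IsCoprime ((q : ℤ) ^ l) ((p : ℤ) ^ l) :=
        IsCoprime.pow (Nat.isCoprime_iff_coprime.2 hco.symm)
      exact h3.dvd_of_dvd_mul_left h2
    have hle : ∀ l, (q : ℤ) ^ l ≤ |z 0| * N := by
      intro l
      have hne : z 0 * r l ≠ 0 := mul_ne_zero hz0 (by exact_mod_cast (hr0 l).ne')
      have h2 := Int.le_of_dvd (abs_pos.2 hne) ((dvd_abs _ _).2 (hdvd l))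
      rw [abs_mul, Nat.abs_cast] at h2
      have h3 : (r l : ℤ) ≤ N := by exact_mod_cast (hrN l).le
      exact h2.trans (mul_le_mul_of_nonneg_left h3 (abs_nonneg _))
    obtain ⟨l, hl⟩ := pow_unbounded_of_one_lt (((|z 0| * N : ℤ) : ℝ)) (by linarith : (1 : ℝ) < q)
    have h2 : (((q : ℤ) ^ l : ℤ) : ℝ) ≤ ((|z 0| * N : ℤ) : ℝ) := by exact_mod_cast hle l
    push_cast at h2 hl
    linarith

end Pool.Agent.R544.PQ
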