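import Pool.Agent.R544.PQ.Arc
import Pool.Agent.R544.PQ.Conf

/-!
Digits of the multiples of a configuration: small and large digits.
-/

set_option autoImplicit false

namespace Pool.Agent.R544.PQ

open Finset Pool.Agent.H429R2.Auto

lemma fract_neg_eq {x : ℝ} (h : Int.fract x ≠ 0) : Int.fract (-x) = 1 - Int.fract x :=
  Int.fract_neg h

/-- the upper arc -/
theorem arc_upper (p q : ℕ) (hq : 2 ≤ q) (hqp : q < p) (hco : Nat.Coprime p q)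
    (ξ : ℝ) (hξ : ξ ≠ 0) (M : ℕ) (hM : 1 ≤ M) :
    (({m : ℕ | m < M ∧ {t : ℕ | Int.fract (m * (ξ * ((p : ℝ) / q) ^ t)) ≤
      1 - 1 / (q : ℝ)}.Finite}.ncard : ℕ) : ℝ) ≤ (p : ℝ) / (p - q) *
      ((p : ℝ) * (p + q) / q * M) ^ (Real.log ((p : ℝ) / q) / Real.log p) := by
  refine le_trans ?_ (arc_bound p q hq hqp hco (-ξ) (neg_ne_zero.2 hξ) M hM)
  have hsub : {m : ℕ | m < M ∧ {t : ℕ | Int.fract (m * (ξ * ((p : ℝ) / q) ^ t)) ≤
      1 - 1 / (q : ℝ)}.Finite} ⊆ ArcExc p q (-ξ) M := by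
    rintro m ⟨hm, hf⟩
    refine ⟨hm, hf.subset fun t ht => ?_⟩
    have ht' : 1 / (q : ℝ) ≤ Int.fract (m * (-ξ * ((p : ℝ) / q) ^ t)) := ht
    have hqR : (2 : ℝ) ≤ q := by exact_mod_cast hq
    have hq1 : 1 / (q : ℝ) ≤ 1 := by
      rw [div_le_one (by linarith)]
      linarith
    show Int.fract (m * (ξ * ((p : ℝ) / q) ^ t)) ≤ 1 - 1 / (q : ℝ)
    by_cases h0 : Int.fract ((m : ℝ) * (ξ * ((p : ℝ) / q) ^ t)) = 0
    · rw [h0]
      linarith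
    · have e : (m : ℝ) * (-ξ * ((p : ℝ) / q) ^ t) = -(m * (ξ * ((p : ℝ) / q) ^ t)) := by ring
      rw [e, fract_neg_eq h0] at ht'
      linarith
  exact_mod_cast Set.ncard_le_ncard hsub ((Set.finite_lt_nat M).subset fun _ hm => hm.1)

lemma half_unique (c : ℝ) : {t : ℕ | Int.fract (c * (3 / 2 : ℝ) ^ t) = 1 / 2}.Subsingleton := by
  have key : ∀ s t : ℕ, s < t → Int.fract (c * (3 / 2 : ℝ) ^ s) = 1 / 2 →
      Int.fract (c * (3 / 2 : ℝ) ^ t) = 1 / 2 → False := by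
    intro s t hst hs ht
    obtain ⟨k, rfl⟩ : ∃ k, t = s + (k + 1) := ⟨t - s - 1, by omega⟩
    have h1 : c * (3 / 2 : ℝ) ^ s = ⌊c * (3 / 2 : ℝ) ^ s⌋ + 1 / 2 := by
      have := Int.floor_add_fract (c * (3 / 2 : ℝ) ^ s)
      linarith
    have h2 : c * (3 / 2 : ℝ) ^ (s + (k + 1)) = ⌊c * (3 / 2 : ℝ) ^ (s + (k + 1))⌋ + 1 / 2 := by
      have := Int.floor_add_fract (c * (3 / 2 : ℝ) ^ (s + (k + 1)))
      linarith
    generalize ⌊c * (3 / 2 : ℝ) ^ s⌋ = a at h1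
    generalize ⌊c * (3 / 2 : ℝ) ^ (s + (k + 1))⌋ = b at h2
    have h3 : (3 : ℝ) ^ (k + 1) * (2 * a + 1) = 2 ^ (k + 1) * (2 * b + 1) := by
      have h4 : c * (3 / 2 : ℝ) ^ (s + (k + 1)) = (c * (3 / 2 : ℝ) ^ s) * (3 ^ (k + 1) / 2 ^ (k + 1)) := by
        rw [pow_add, div_pow (3 : ℝ) 2 (k + 1)]
        ring
      rw [h4, h1] at h2
      field_simp at h2
      linarith
    have h5 : (3 : ℤ) ^ (k + 1) * (2 * a + 1) = 2 ^ (k + 1) * (2 * b + 1) := by exact_mod_cast h3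
    have h6 : Odd ((3 : ℤ) ^ (k + 1) * (2 * a + 1)) :=
      Odd.mul (Odd.pow (by decide)) ⟨a, rfl⟩
    have h7 : Even ((3 : ℤ) ^ (k + 1) * (2 * a + 1)) := by
      rw [h5, pow_succ]
      exact (even_two.mul_left _).mul_right _
    exact (Int.not_even_iff_odd.2 h6) h7
  intro s hs t ht
  rcases lt_trichotomy s t with h | h | h
  · exact (key s t h hs ht).elim
  · exact h
  · exact (key t s h ht hs).elim

/-- the digit in terms of the fractional part -/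
lemma digit_lt_three (β : ℝ) (hβ : 0 ≤ β) (j : ℤ) (t : ℕ) :
    ((F^[t] (conf β)) j : ℕ) < 3 ↔
      Int.fract ((6 : ℝ) ^ (j - 1) * ((3 / 2) ^ t * β)) < 1 / 2 := by
  have hrep := rep_iter hβ (rep_conf β) t
  rw [hrep j]
  set y : ℝ := (6 : ℝ) ^ (j - 1) * ((3 / 2) ^ t * β) with hy
  have hy0 : 0 ≤ y := by positivity
  have e1 : (6 : ℝ) ^ j * ((3 / 2) ^ t * β) = 6 * y := by
    rw [hy, show j = 1 + (j - 1) by ring, zpow_add₀ (by norm_num), zpow_one]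
    ring_nf
  rw [e1]
  have hf0 : 0 ≤ Int.fract y := Int.fract_nonneg y
  have hf1 : Int.fract y < 1 := Int.fract_lt_one y
  obtain ⟨d, hd⟩ : ∃ d, d = ⌊6 * Int.fract y⌋₊ := ⟨_, rfl⟩
  have hd1 : (d : ℝ) ≤ 6 * Int.fract y := by rw [hd]; exact Nat.floor_le (by positivity)
  have hd2 : 6 * Int.fract y < d + 1 := by rw [hd]; exact Nat.lt_floor_add_one _
  have hd6 : d < 6 := by
    have : (d : ℝ) < 6 := by linarith
    exact_mod_cast this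
  have hfl : ⌊6 * y⌋₊ = 6 * ⌊y⌋₊ + d := by
    rw [Nat.floor_eq_iff (by positivity)]
    have h3 : y = (⌊y⌋₊ : ℝ) + Int.fract y := by
      rw [natCast_floor_eq_intCast_floor hy0]
      exact (Int.floor_add_fract y).symm
    have h4 : 6 * y = 6 * (⌊y⌋₊ : ℝ) + 6 * Int.fract y := by
      conv_lhs => rw [h3]
      ring
    push_cast
    rw [h4]
    constructor <;> linarith
  rw [hfl, Nat.mul_add_mod, Nat.mod_eq_of_lt hd6]
  constructor
  · intro h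
    have : (d : ℝ) + 1 ≤ 3 := by exact_mod_cast h
    linarith
  · intro h
    have : (d : ℝ) < 3 := by linarith
    exact_mod_cast this

/-- the bound -/
noncomputable def hb (M : ℕ) : ℝ := 3 * (15 / 2 * M) ^ (Real.log (3 / 2) / Real.log 3)

lemma hb_eq (M : ℕ) : (((3 : ℕ) : ℝ) / (((3 : ℕ) : ℝ) - ((2 : ℕ) : ℝ)) *
      (((3 : ℕ) : ℝ) * (((3 : ℕ) : ℝ) + ((2 : ℕ) : ℝ)) / ((2 : ℕ) : ℝ) * M) ^
        (Real.log (((3 : ℕ) : ℝ) / ((2 : ℕ) : ℝ)) / Real.log ((3 : ℕ) : ℝ))) = hb M := by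
  unfold hb
  norm_num

lemma small_digits (β : ℝ) (hβ : 0 < β) (M : ℕ) (hM : 1 ≤ M) (j : ℤ) :
    (({m : ℕ | m < M ∧ {t : ℕ | 3 ≤ ((F^[t] (conf (m * β))) j : ℕ)}.Finite}.ncard : ℕ) : ℝ) ≤
      hb M := by
  rw [← hb_eq]
  refine le_trans ?_ (arc_bound 3 2 le_rfl (by norm_num) (by norm_num)
    ((6 : ℝ) ^ (j - 1) * β) (by positivity) M hM)
  have hsub : {m : ℕ | m < M ∧ {t : ℕ | 3 ≤ ((F^[t] (conf (m * β))) j : ℕ)}.Finite} ⊆
      ArcExc 3 2 ((6 : ℝ) ^ (j - 1) * β) M := by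
    rintro m ⟨hm, hf⟩
    refine ⟨hm, hf.subset fun t ht => ?_⟩
    show 3 ≤ ((F^[t] (conf (m * β))) j : ℕ)
    by_contra hcon
    rw [not_le, digit_lt_three _ (by positivity)] at hcon
    have ht' : 1 / (((2 : ℕ) : ℝ)) ≤
      Int.fract (m * ((6 : ℝ) ^ (j - 1) * β * (((3 : ℕ) : ℝ) / ((2 : ℕ) : ℝ)) ^ t)) := ht
    have e : (m : ℝ) * ((6 : ℝ) ^ (j - 1) * β * (((3 : ℕ) : ℝ) / ((2 : ℕ) : ℝ)) ^ t) =
        (6 : ℝ) ^ (j - 1) * ((3 / 2) ^ t * (m * β)) := by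
      push_cast
      ring
    rw [e] at ht'
    push_cast at ht'
    linarith
  exact_mod_cast Set.ncard_le_ncard hsub ((Set.finite_lt_nat M).subset fun _ hm => hm.1)

lemma large_digits (β : ℝ) (hβ : 0 < β) (M : ℕ) (hM : 1 ≤ M) (j : ℤ) :
    (({m : ℕ | m < M ∧ {t : ℕ | ((F^[t] (conf (m * β))) j : ℕ) < 3}.Finite}.ncard : ℕ) : ℝ) ≤
      hb M := by
  rw [← hb_eq]
  refine le_trans ?_ (arc_bound 3 2 le_rfl (by norm_num) (by norm_num)
    (-((6 : ℝ) ^ (j - 1) * β)) (neg_ne_zero.2 (by positivity)) M hM)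
  have hsub : {m : ℕ | m < M ∧ {t : ℕ | ((F^[t] (conf (m * β))) j : ℕ) < 3}.Finite} ⊆
      ArcExc 3 2 (-((6 : ℝ) ^ (j - 1) * β)) M := by
    rintro m ⟨hm, hf⟩
    have hfin2 : {t : ℕ | Int.fract ((6 : ℝ) ^ (j - 1) * (m * β) * (3 / 2 : ℝ) ^ t) = 1 / 2}.Finite :=
      (half_unique _).finite
    refine ⟨hm, (hf.union hfin2).subset fun t ht => ?_⟩
    have ht' : 1 / (((2 : ℕ) : ℝ)) ≤
      Int.fract (m * (-((6 : ℝ) ^ (j - 1) * β) * (((3 : ℕ) : ℝ) / ((2 : ℕ) : ℝ)) ^ t)) := ht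
    have e : (m : ℝ) * (-((6 : ℝ) ^ (j - 1) * β) * (((3 : ℕ) : ℝ) / ((2 : ℕ) : ℝ)) ^ t) =
        -((6 : ℝ) ^ (j - 1) * ((3 / 2) ^ t * (m * β))) := by
      push_cast
      ring
    rw [e] at ht'
    by_cases h0 : Int.fract ((6 : ℝ) ^ (j - 1) * ((3 / 2) ^ t * (m * β))) = 0
    · left
      show ((F^[t] (conf (m * β))) j : ℕ) < 3
      rw [digit_lt_three _ (by positivity), h0]
      norm_num
    · rw [fract_neg_eq h0] at ht'
      push_cast at ht'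
      rcases (show Int.fract ((6 : ℝ) ^ (j - 1) * ((3 / 2) ^ t * (m * β))) ≤ 1 / 2 by
        linarith).lt_or_eq with h1 | h1
      · left
        show ((F^[t] (conf (m * β))) j : ℕ) < 3
        rw [digit_lt_three _ (by positivity)]
        exact h1
      · right
        show Int.fract ((6 : ℝ) ^ (j - 1) * (m * β) * (3 / 2 : ℝ) ^ t) = 1 / 2
        rw [← h1]
        congr 1
        ring
  exact_mod_cast Set.ncard_le_ncard hsub ((Set.finite_lt_nat M).subset fun _ hm => hm.1)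

/-- all positions in a window -/
theorem half_window (β : ℝ) (hβ : 0 < β) (M : ℕ) (hM : 1 ≤ M) (J : ℕ) :
    (({m : ℕ | m < M ∧ ¬ ∀ j : ℤ, |j| ≤ J →
      {t : ℕ | ((F^[t] (conf (m * β))) j : ℕ) < 3}.Infinite ∧
      {t : ℕ | 3 ≤ ((F^[t] (conf (m * β))) j : ℕ)}.Infinite}.ncard : ℕ) : ℝ) ≤
      (2 * J + 1) * (2 * hb M) := by
  classical
  set S : ℤ → Set ℕ := fun j =>
    {m : ℕ | m < M ∧ {t : ℕ | ((F^[t] (conf (m * β))) j : ℕ) < 3}.Finite} ∪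
    {m : ℕ | m < M ∧ {t : ℕ | 3 ≤ ((F^[t] (conf (m * β))) j : ℕ)}.Finite} with hS
  set I : Finset ℤ := Finset.Icc (-(J : ℤ)) J with hI
  have hSf : ∀ x, (S x).Finite := fun x => (Set.finite_lt_nat M).subset fun m hm =>
    hm.elim (fun h => h.1) (fun h => h.1)
  have hSb : ∀ j, ((S j).ncard : ℝ) ≤ 2 * hb M := by
    intro j
    have h1 : ((S j).ncard : ℝ) ≤
        (({m : ℕ | m < M ∧ {t : ℕ | ((F^[t] (conf (m * β))) j : ℕ) < 3}.Finite}.ncard : ℕ) : ℝ) +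
        (({m : ℕ | m < M ∧ {t : ℕ | 3 ≤ ((F^[t] (conf (m * β))) j : ℕ)}.Finite}.ncard : ℕ) : ℝ) := by
      exact_mod_cast Set.ncard_union_le _ _
    have h2 := large_digits β hβ M hM j
    have h3 := small_digits β hβ M hM j
    linarith
  have hsub : {m : ℕ | m < M ∧ ¬ ∀ j : ℤ, |j| ≤ J →
      {t : ℕ | ((F^[t] (conf (m * β))) j : ℕ) < 3}.Infinite ∧
      {t : ℕ | 3 ≤ ((F^[t] (conf (m * β))) j : ℕ)}.Infinite} ⊆ ⋃ x ∈ I, S x := by
    rintro m ⟨hm, hn⟩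
    simp only [not_forall] at hn
    obtain ⟨j, hj, hn⟩ := hn
    rw [Set.mem_iUnion₂]
    refine ⟨j, ?_, ?_⟩
    · rw [hI, Finset.mem_Icc]
      rwa [abs_le] at hj
    · rw [not_and_or, Set.not_infinite, Set.not_infinite] at hn
      rcases hn with h | h
      · exact Or.inl ⟨hm, h⟩
      · exact Or.inr ⟨hm, h⟩
  have h1 := (Set.ncard_le_ncard hsub (Set.Finite.biUnion I.finite_toSet fun x _ => hSf x)).trans
      (Finset.set_ncard_biUnion_le I S)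
  have h2 : (({m : ℕ | m < M ∧ ¬ ∀ j : ℤ, |j| ≤ J →
      {t : ℕ | ((F^[t] (conf (m * β))) j : ℕ) < 3}.Infinite ∧
      {t : ℕ | 3 ≤ ((F^[t] (conf (m * β))) j : ℕ)}.Infinite}.ncard : ℕ) : ℝ) ≤
      ∑ x ∈ I, ((S x).ncard : ℝ) := by exact_mod_cast h1
  refine h2.trans ((Finset.sum_le_card_nsmul I _ _ fun x _ => hSb x).trans (le_of_eq ?_))
  have hcard : (I.card : ℝ) = 2 * J + 1 := by
    rw [hI, Int.card_Icc]
    have : ((J : ℤ) + 1 - -(J : ℤ)).toNat = 2 * J + 1 := by omega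
    rw [this]
    push_cast
    ring
  rw [nsmul_eq_mul, hcard]

end Pool.Agent.R544.PQ
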