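import Pool.Agent.R544.PQ.Good
import Pool.Agent.R544.PQ.Cnt

/-!
For almost all `m` the fractional parts of `m ξ (p/q)^t` are infinitely often in a given interval.
-/

set_option autoImplicit false

namespace Pool.Agent.R544.PQ

open Finset

/-- the exceptional `m < M` -/
def Exc (p q : ℕ) (ξ a b : ℝ) (M : ℕ) : Set ℕ :=
  {m : ℕ | m < M ∧ {t : ℕ | a ≤ Int.fract (m * (ξ * ((p : ℝ) / q) ^ t)) ∧
    Int.fract (m * (ξ * ((p : ℝ) / q) ^ t)) < b}.Finite}

lemma exc_finite (p q : ℕ) (ξ a b : ℝ) (M : ℕ) : (Exc p q ξ a b M).Finite :=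
  (Set.finite_lt_nat M).subset fun _ hm => hm.1

theorem exc_card (p q : ℕ) (hq : 2 ≤ q) (hqp : q < p) (hco : Nat.Coprime p q) (h K : ℕ)
    (ξ : ℝ) (hξ : ξ ≠ 0) (a : ℝ) (ha : 0 ≤ a) (ha1 : a + 2 / (q : ℝ) ^ h ≤ 1) (M : ℕ)
    (hM : 1 ≤ M) (hMT : (p + q) * M ≤ q ^ (K * h) * p ^ (K * h)) :
    (Exc p q ξ a (a + 2 / (q : ℝ) ^ h) M).ncard ≤ p ^ (K * h) * (q ^ h - 1) ^ K := by
  classical
  have hp : 0 < p := by omega
  have hq0 : 0 < q := by omega
  have hqR : (0 : ℝ) < q := by exact_mod_cast hq0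
  have hpR : (0 : ℝ) < p := by exact_mod_cast hp
  set T := K * h with hT
  set E := Exc p q ξ a (a + 2 / (q : ℝ) ^ h) M with hE
  have hEf : E.Finite := exc_finite _ _ _ _ _ _
  -- a time after which the interval is avoided
  obtain ⟨t0, ht0⟩ : ∃ t0, ∀ m ∈ E, ∀ t, t0 ≤ t →
      ¬ (a ≤ Int.fract (m * (ξ * ((p : ℝ) / q) ^ t)) ∧
        Int.fract (m * (ξ * ((p : ℝ) / q) ^ t)) < a + 2 / (q : ℝ) ^ h) := by
    have h1 : ∀ m : ℕ, ∃ B, m ∈ E → ∀ t, B ≤ t →
        ¬ (a ≤ Int.fract (m * (ξ * ((p : ℝ) / q) ^ t)) ∧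
        Int.fract (m * (ξ * ((p : ℝ) / q) ^ t)) < a + 2 / (q : ℝ) ^ h) := by
      intro m
      by_cases hm : m ∈ E
      · obtain ⟨B, hB⟩ := hm.2.bddAbove
        refine ⟨B + 1, fun _ i hi hs => ?_⟩
        have := hB hs
        omega
      · exact ⟨0, fun h => absurd h hm⟩
    choose B hB using h1
    refine ⟨(Finset.range M).sup B, fun m hm i hi => hB m hm i ?_⟩
    exact (Finset.le_sup (Finset.mem_range.2 hm.1)).trans hi
  have hqT : (0 : ℝ) < (q : ℝ) ^ T := by positivity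
  obtain ⟨t, ht, hgood⟩ := exists_good p q hq hqp hco (ξ / (q : ℝ) ^ T) (div_ne_zero hξ hqT.ne') M hM t0
  set x : ℝ := ξ / (q : ℝ) ^ T * ((p : ℝ) / q) ^ t with hx
  set N : ℕ := q ^ T * p ^ T with hN
  have hN0 : 0 < N := by positivity
  have hNR : (0 : ℝ) < N := by exact_mod_cast hN0
  set u : ℕ → ℕ := fun m => ⌊Int.fract (m * x) * N⌋₊ with hu
  have hmaps : ∀ m ∈ E, u m ∈ ((bad p q h T a K : Finset ℕ) : Set ℕ) := by
    intro m hm
    rw [Finset.mem_coe, mem_bad]
    have hf0 : 0 ≤ Int.fract ((m : ℝ) * x) := Int.fract_nonneg _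
    have hf1 : Int.fract ((m : ℝ) * x) < 1 := Int.fract_lt_one _
    have hfl1 : ((u m : ℕ) : ℝ) ≤ Int.fract (m * x) * N := Nat.floor_le (by positivity)
    have hfl2 : Int.fract (m * x) * N < (u m : ℕ) + 1 := Nat.lt_floor_add_one _
    refine ⟨?_, fun j hj1 hjK hcon => ?_⟩
    · have : ((u m : ℕ) : ℝ) < N := by nlinarith
      exact_mod_cast this
    · -- a hit at the time `t + j h`
      have hjh : j * h ≤ T := Nat.mul_le_mul_right _ hjK
      set w := W p q h T j with hw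
      have hw0 : 0 < w := by
        rw [hw]
        unfold W
        positivity
      have hwR : (0 : ℝ) < w := by exact_mod_cast hw0
      have hwq : (q : ℝ) ^ h ≤ w := by
        have : q ^ h ≤ w := by
          rw [hw]
          unfold W
          calc q ^ h ≤ q ^ (j * h) := Nat.pow_le_pow_right hq0 (Nat.le_mul_of_pos_left h hj1)
            _ ≤ q ^ (j * h) * p ^ (T - j * h) := Nat.le_mul_of_pos_right _ (by positivity)
        exact_mod_cast this
      set G : ℕ := q ^ (T - j * h) * p ^ (j * h) with hG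
      have hGw : G * w = N := by
        rw [hG, hw, hN]
        unfold W
        calc q ^ (T - j * h) * p ^ (j * h) * (q ^ (j * h) * p ^ (T - j * h))
            = (q ^ (T - j * h) * q ^ (j * h)) * (p ^ (j * h) * p ^ (T - j * h)) := by ring
          _ = q ^ T * p ^ T := by
            rw [← pow_add, ← pow_add, Nat.sub_add_cancel hjh, Nat.add_sub_cancel' hjh]
      have hGwR : (G : ℝ) * w = N := by exact_mod_cast hGw
      -- the value at the time `t + j h`
      have hval : (m : ℝ) * (ξ * ((p : ℝ) / q) ^ (t + j * h)) = (m * x) * G := by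
        rw [hx, hG, pow_add, div_pow (p : ℝ) q (j * h)]
        push_cast
        have : (q : ℝ) ^ T = (q : ℝ) ^ (T - j * h) * (q : ℝ) ^ (j * h) := by
          rw [← pow_add, Nat.sub_add_cancel hjh]
        rw [this]
        field_simp
      have hfr : Int.fract ((m : ℝ) * (ξ * ((p : ℝ) / q) ^ (t + j * h))) =
          (((u m % w : ℕ) : ℝ) + (Int.fract (m * x) * N - u m)) / w := by
        rw [Int.fract_eq_iff]
        have hlt : ((u m % w : ℕ) : ℝ) + 1 ≤ w := by
          have : u m % w + 1 ≤ w := Nat.mod_lt _ hw0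
          exact_mod_cast this
        have h2 : ((u m : ℕ) : ℝ) = w * ((u m / w : ℕ) : ℝ) + ((u m % w : ℕ) : ℝ) := by
          exact_mod_cast (Nat.div_add_mod (u m) w).symm
        generalize u m / w = k at h2
        generalize u m % w = r' at h2 hlt
        refine ⟨by
          apply div_nonneg _ hwR.le
          have : (0 : ℝ) ≤ (r' : ℝ) := by positivity
          linarith, by
          rw [div_lt_one hwR]
          linarith, ⌊(m : ℝ) * x⌋ * G + k, ?_⟩
        have h3 : (m : ℝ) * x = ⌊(m : ℝ) * x⌋ + Int.fract ((m : ℝ) * x) :=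
          (Int.floor_add_fract _).symm
        rw [hval]
        push_cast
        rw [sub_eq_iff_eq_add, ← hGwR]
        have h5 : ((m : ℝ) * x) * G = ⌊(m : ℝ) * x⌋ * G + Int.fract ((m : ℝ) * x) * G := by
          conv_lhs => rw [h3]
          ring
        rw [h5]
        field_simp
        rw [h2]
        ring
      have hlo : a ≤ Int.fract ((m : ℝ) * (ξ * ((p : ℝ) / q) ^ (t + j * h))) := by
        rw [hfr]
        refine hcon.1.trans ?_
        apply div_le_div_of_nonneg_right _ hwR.le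
        linarith
      have hhi : Int.fract ((m : ℝ) * (ξ * ((p : ℝ) / q) ^ (t + j * h))) <
          a + 2 / (q : ℝ) ^ h := by
        rw [hfr, add_div]
        have h3 : (Int.fract ((m : ℝ) * x) * N - (u m : ℕ)) / w ≤ 1 / (q : ℝ) ^ h := by
          have h4 : (Int.fract ((m : ℝ) * x) * N - (u m : ℕ)) / w ≤ 1 / w :=
            div_le_div_of_nonneg_right (by linarith) hwR.le
          exact h4.trans (one_div_le_one_div_of_le (by positivity) hwq)
        have h4 := hcon.2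
        have h5 : (2 : ℝ) / (q : ℝ) ^ h = 1 / (q : ℝ) ^ h + 1 / (q : ℝ) ^ h := by ring
        rw [h5]
        linarith
      exact ht0 m hm (t + j * h) (by omega) ⟨hlo, hhi⟩
  have hinj : Set.InjOn u E := by
    -- two different `m` are in different cells
    have key : ∀ m m' : ℕ, m' < m → m < M → u m = u m' → False := by
      intro m m' hlt hmM huu
      have hf0 : 0 ≤ Int.fract ((m : ℝ) * x) := Int.fract_nonneg _
      have hf0' : 0 ≤ Int.fract ((m' : ℝ) * x) := Int.fract_nonneg _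
      have a1 : ((u m : ℕ) : ℝ) ≤ Int.fract (m * x) * N := Nat.floor_le (by positivity)
      have a2 : Int.fract (m * x) * N < (u m : ℕ) + 1 := Nat.lt_floor_add_one _
      have b1 : ((u m' : ℕ) : ℝ) ≤ Int.fract (m' * x) * N := Nat.floor_le (by positivity)
      have b2 : Int.fract (m' * x) * N < (u m' : ℕ) + 1 := Nat.lt_floor_add_one _
      rw [huu] at a1 a2
      have h1 := hgood (m - m') (by omega) (by omega) (⌊(m : ℝ) * x⌋ - ⌊(m' : ℝ) * x⌋)
      have h2 : ((m - m' : ℕ) : ℝ) * x - ((⌊(m : ℝ) * x⌋ - ⌊(m' : ℝ) * x⌋ : ℤ) : ℝ) =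
          Int.fract ((m : ℝ) * x) - Int.fract ((m' : ℝ) * x) := by
        rw [Nat.cast_sub hlt.le]
        push_cast
        rw [← Int.self_sub_floor, ← Int.self_sub_floor]
        ring
      rw [h2] at h1
      have h3 : |Int.fract ((m : ℝ) * x) - Int.fract ((m' : ℝ) * x)| * N < 1 := by
        have e1 : |Int.fract ((m : ℝ) * x) - Int.fract ((m' : ℝ) * x)| * N =
            |(Int.fract ((m : ℝ) * x) - Int.fract ((m' : ℝ) * x)) * N| := by
          rw [abs_mul, abs_of_pos hNR]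
        rw [e1, abs_lt]
        constructor <;> linarith
      have h4 : (1 : ℝ) ≤ |Int.fract ((m : ℝ) * x) - Int.fract ((m' : ℝ) * x)| * (((p : ℝ) + q) * M) := by
        have hpos : (0 : ℝ) < ((p : ℝ) + q) * M := by
          have : (1 : ℝ) ≤ M := by exact_mod_cast hM
          positivity
        rwa [div_le_iff₀ hpos] at h1
      have h5 : ((p : ℝ) + q) * M ≤ N := by exact_mod_cast hMT
      have h6 : 0 ≤ |Int.fract ((m : ℝ) * x) - Int.fract ((m' : ℝ) * x)| := abs_nonneg _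
      nlinarith
    intro m hm m' hm' huu
    rcases lt_trichotomy m m' with hlt | heq | hgt
    · exact (key m' m hlt hm'.1 huu.symm).elim
    · exact heq
    · exact (key m m' hgt hm.1 huu).elim
  have h1 := Set.ncard_le_ncard_of_injOn u hmaps hinj (Finset.finite_toSet _)
  rw [Set.ncard_coe_finset] at h1
  have ha1' : a + 1 / (q : ℝ) ^ h ≤ 1 := by
    have h5 : (2 : ℝ) / (q : ℝ) ^ h = 1 / (q : ℝ) ^ h + 1 / (q : ℝ) ^ h := by ring
    have : 0 < 1 / (q : ℝ) ^ h := by positivity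
    linarith
  exact h1.trans (card_bad p q h T hq hp hco a ha ha1' K le_rfl)

/-- the exponent -/
noncomputable def expo (p q h : ℕ) : ℝ :=
  -Real.log (1 - 1 / (q : ℝ) ^ h) / (h * Real.log ((p : ℝ) * q))

lemma expo_pos (p q h : ℕ) (hq : 2 ≤ q) (hqp : q < p) (hh : 1 ≤ h) : 0 < expo p q h := by
  have hqR : (2 : ℝ) ≤ q := by exact_mod_cast hq
  have hpR : (q : ℝ) < p := by exact_mod_cast hqp
  have h1 : (1 : ℝ) < (q : ℝ) ^ h := one_lt_pow₀ (by linarith) (by omega)
  have h2 : 0 < 1 / (q : ℝ) ^ h := by positivity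
  have h3 : 1 / (q : ℝ) ^ h < 1 := by rw [div_lt_one (by positivity)]; exact h1
  have h4 : Real.log (1 - 1 / (q : ℝ) ^ h) < 0 := Real.log_neg (by linarith) (by linarith)
  have h5 : 0 < Real.log ((p : ℝ) * q) := Real.log_pos (by nlinarith)
  have h6 : (0 : ℝ) < h := by exact_mod_cast hh
  unfold expo
  exact div_pos (by linarith) (by positivity)

/-- **Main theorem** on the multiples of a real number. -/
theorem exc_bound (p q : ℕ) (hq : 2 ≤ q) (hqp : q < p) (hco : Nat.Coprime p q) (h : ℕ) (hh : 1 ≤ h)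
    (ξ : ℝ) (hξ : ξ ≠ 0) (a : ℝ) (ha : 0 ≤ a) (ha1 : a + 2 / (q : ℝ) ^ h ≤ 1) (M : ℕ)
    (hM : 1 ≤ M) :
    ((Exc p q ξ a (a + 2 / (q : ℝ) ^ h) M).ncard : ℝ) ≤
      ((p : ℝ) + q) * ((p : ℝ) * q) ^ h * (M : ℝ) ^ (1 - expo p q h) := by
  have hqR : (2 : ℝ) ≤ q := by exact_mod_cast hq
  have hpR : (q : ℝ) < p := by exact_mod_cast hqp
  have hMR : (1 : ℝ) ≤ M := by exact_mod_cast hM
  have hP : (1 : ℝ) < (p : ℝ) * q := by nlinarith
  set c := expo p q h with hc
  have hc0 : 0 < c := expo_pos p q h hq hqp hh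
  -- the least `K`
  have hex : ∃ K : ℕ, ((p : ℝ) + q) * M ≤ ((p : ℝ) * q) ^ (K * h) := by
    obtain ⟨K, hK⟩ := pow_unbounded_of_one_lt (((p : ℝ) + q) * M) hP
    exact ⟨K, hK.le.trans (pow_le_pow_right₀ hP.le (Nat.le_mul_of_pos_right K hh))⟩
  classical
  set K := Nat.find hex with hKdef
  have hK : ((p : ℝ) + q) * M ≤ ((p : ℝ) * q) ^ (K * h) := Nat.find_spec hex
  have hK1 : 1 ≤ K := by
    by_contra hcon
    have : K = 0 := by omega
    rw [this, zero_mul, pow_zero] at hK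
    nlinarith
  have hKm : ((p : ℝ) * q) ^ ((K - 1) * h) < ((p : ℝ) + q) * M :=
    not_le.1 (Nat.find_min hex (Nat.sub_lt hK1 one_pos))
  have hMT : (p + q) * M ≤ q ^ (K * h) * p ^ (K * h) := by
    have h1 : (((p + q) * M : ℕ) : ℝ) ≤ ((q ^ (K * h) * p ^ (K * h) : ℕ) : ℝ) := by
      push_cast
      rw [mul_pow] at hK
      linarith
    exact_mod_cast h1
  have hcard := exc_card p q hq hqp hco h K ξ hξ a ha ha1 M hM hMT
  have hq1 : (1 : ℝ) < (q : ℝ) ^ h := one_lt_pow₀ (by linarith) (by omega)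
  set ρ : ℝ := 1 - 1 / (q : ℝ) ^ h with hρ
  have hρ0 : 0 < ρ := by
    have : 1 / (q : ℝ) ^ h < 1 := by rw [div_lt_one (by positivity)]; exact hq1
    rw [hρ]
    linarith
  set X : ℝ := ((p : ℝ) * q) ^ (K * h) with hX
  have hX0 : 0 < X := by positivity
  have hcardR : ((Exc p q ξ a (a + 2 / (q : ℝ) ^ h) M).ncard : ℝ) ≤ X * ρ ^ K := by
    have h1 : ((Exc p q ξ a (a + 2 / (q : ℝ) ^ h) M).ncard : ℝ) ≤
        ((p ^ (K * h) * (q ^ h - 1) ^ K : ℕ) : ℝ) := by exact_mod_cast hcard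
    refine h1.trans (le_of_eq ?_)
    have h2 : 1 ≤ q ^ h := Nat.one_le_pow _ _ (by omega)
    rw [Nat.cast_mul, Nat.cast_pow, Nat.cast_pow, Nat.cast_sub h2, Nat.cast_pow, Nat.cast_one, hX,
      mul_pow, mul_assoc, mul_comm K h, pow_mul (q : ℝ) h K, ← mul_pow]
    congr 2
    rw [hρ]
    field_simp
  -- `ρ ^ K = X ^ (-c)`
  have hlogP : 0 < Real.log ((p : ℝ) * q) := Real.log_pos hP
  have hhR : (0 : ℝ) < h := by exact_mod_cast hh
  have hpow : ρ ^ K = X ^ (-c) := by
    rw [Real.rpow_def_of_pos hX0, hX, Real.log_pow, ← Real.exp_log (pow_pos hρ0 K), Real.log_pow]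
    congr 1
    rw [hc, expo, ← hρ]
    push_cast
    field_simp
  have hXM : (M : ℝ) ≤ X := by nlinarith
  have hXup : X ≤ ((p : ℝ) + q) * M * ((p : ℝ) * q) ^ h := by
    have e1 : X = ((p : ℝ) * q) ^ ((K - 1) * h) * ((p : ℝ) * q) ^ h := by
      rw [hX, ← pow_add]
      congr 1
      obtain ⟨k, hk⟩ : ∃ k, K = k + 1 := ⟨K - 1, by omega⟩
      rw [hk, Nat.add_sub_cancel]
      ring
    rw [e1]
    exact mul_le_mul_of_nonneg_right hKm.le (by positivity)
  have hM0 : (0 : ℝ) < M := by linarith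
  calc ((Exc p q ξ a (a + 2 / (q : ℝ) ^ h) M).ncard : ℝ) ≤ X * ρ ^ K := hcardR
    _ = X * X ^ (-c) := by rw [hpow]
    _ ≤ (((p : ℝ) + q) * M * ((p : ℝ) * q) ^ h) * (M : ℝ) ^ (-c) := by
        refine mul_le_mul hXup (Real.rpow_le_rpow_of_nonpos hM0 hXM (by linarith))
          (by positivity) (by positivity)
    _ = ((p : ℝ) + q) * ((p : ℝ) * q) ^ h * (M : ℝ) ^ (1 - c) := by
        rw [sub_eq_add_neg, Real.rpow_add hM0, Real.rpow_one]
        ring

end Pool.Agent.R544.PQ
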